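import Pool.Agent.Q28.AT.Diag

/-!
# MP_ad7a55_nt: almost all tuples of conjugates

The Galois orbits of almost all tuples of conjugates of CM points on a product of modular curves are
equidistributed, if the discriminants of all coordinates tend to infinity.
-/

namespace Pool.Agent.Results.MP_ad7a55_nt.AlmostAllTuples

open Filter Topology MeasureTheory Pool.Agent.Q28.EQ Pool.Agent.Q28.AT

theorem result {G : Type} [Group G] {GF C : Subgroup G} {n : ℕ} (hC : C ≤ GF)
    (hCi : C.index ≠ 0) (Y : Fin n → CMCurve G GF) (hY : ∀ j, TwistedFacts C (Y j))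
    (x : ℕ → Special Y) (hx : NoConstantCoordinate Y x) :
    (∀ f : (∀ j, (Y j).Y) → ℝ, Continuous f → HasCompactSupport f →
      Tendsto (fun i => avg (Conjugates Y (x i)) fun z =>
        |avg (orb GF ⊤ z) (fun y => f fun j => (Y j).val (y j)) -
          ∫ y, f y ∂(Measure.pi fun j => (Y j).m)|) atTop (𝓝 0)) ∧
    (∃ S : ℕ → Set (Special Y), (∀ i, S i ⊆ Conjugates Y (x i)) ∧
      Tendsto (fun i => ((S i).ncard : ℝ) / (Conjugates Y (x i)).ncard) atTop (𝓝 1) ∧
      ∀ z : ℕ → Special Y, (∀ᶠ i in atTop, z i ∈ S i) → Equidistributed Y z) :=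
  ⟨fun f hf hc => limit hC hCi hY x hx f hf hc, good_choice hC hCi hY x hx⟩

end Pool.Agent.Results.MP_ad7a55_nt.AlmostAllTuples
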