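import Pool.Agent.Q28.EQ.Main

/-!
# Equidistribution of Galois orbits of special points with almost disjoint ring class fields

Let `X = Y_1 × ... × Y_n` be a product of modular curves, `F` a number field over which `X` has its
canonical model, and `x_i = (x_i1, ..., x_in)` a sequence of special points which meets each
special subvariety `{y_j = constant}` only finitely often. We prove that the Galois orbits of the
`x_i` over `F` are equidistributed in `X(ℂ)` in the following cases:

* the CM fields of the `n` coordinates of `x_i` are pairwise different;
* more generally, for each `j` the ring class field of the coordinate `x_ij` is almost disjoint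
  (over the CM field) from the compositum of the ring class fields of the coordinates of `x_i` with
  the same CM field: the degree of the intersection is `|disc|^(o(1))`. For example the coordinates
  with the same CM field `K` have orders of conductors `c` with small pairwise greatest common
  divisors, and the discriminant of `K` is small compared with the conductors.

The known facts used (`CMFacts`) are the main theorem of complex multiplication, class field theory
(ring class fields are generalised dihedral), genus theory, and the equidistribution on ONE modular
curve of the orbits of the subgroups of small index of the class groups (Duke, Iwaniec, Michel,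
Harcos and Michel, Zhang, Venkatesh).
-/

namespace Pool.Agent.Results.MP_ad7a55_nt.AlmostDisjointFields

open Filter Pool.Agent.Q28.EQ

/-- **Equidistribution for special points with almost disjoint ring class fields.** `G` is the Galois
group of the algebraic numbers, `GF` the subgroup of the number field `F`, `C ⊆ GF` the subgroup of
a number field normal over the rationals containing `F` and enough roots of unity. -/
theorem result {G : Type} [Group G] {GF C : Subgroup G} (hCn : C.Normal) (hCi : C.index ≠ 0)
    {n : ℕ} {Y : Fin n → CMCurve G GF} (hF : ∀ j, CMFacts C (Y j)) (x : ℕ → Special Y)
    (hx : NoConstantCoordinate Y x) :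
    (AlmostDisjoint Y x → Equidistributed Y x) ∧
    ((∀ᶠ i in atTop, ∀ j k, j ≠ k → (Y j).K (x i j) ≠ (Y k).K (x i k)) → Equidistributed Y x) := by
  refine ⟨fun h => equidistributed hF hCn hCi x hx h, fun h =>
    equidistributed hF hCn hCi x hx fun η hη => ?_⟩
  filter_upwards [h, disc_tendsto hF x hx 1] with i hi hd j
  have h1 : sameField (fun k => (Y k).K (x i k)) (fun k => (Y k).H (x i k)) j =
      (Y j).K (x i j) := by
    ext g
    rw [mem_sameField]
    exact ⟨fun hg => hg.1, fun hg => ⟨hg, fun k hk hKk => absurd hKk.symm (hi j k hk.symm)⟩⟩
  rw [h1, sup_eq_left.mpr ((hF j).dihedral (x i j)).le, Subgroup.relIndex_self]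
  have h2 : (1 : ℝ) ≤ ((Y j).disc (x i j) : ℝ) := by exact_mod_cast hd j
  simpa using Real.one_le_rpow h2 hη.le

end Pool.Agent.Results.MP_ad7a55_nt.AlmostDisjointFields
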