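import Pool.Agent.Q155.HK.Pairs

/-!
# Special points on products of modular curves whose conductors have unbounded gaps

Let `X = Y_1 × ... × Y_n` be a product of modular curves and `x_i` a sequence of special points which
meets each special subvariety `{y_j = constant}` only finitely often. For a set `T` of coordinates and
`j ∈ T` the *gap* of the coordinate `j` of a special point is `c_j / gcd (c_j, L)`, where `c_j` is the
conductor of the order of the coordinate `j` and `L` the least common multiple of the conductors of the
other coordinates in `T` with the same CM field. A coordinate in `T` is *shared* if there are such other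
coordinates.

* Peeling: if the projections of the `x_i` to the coordinates in `T` different from `j` are
  equidistributed, and the gap of the coordinate `j` in `T` tends to infinity (as long as the
  coordinate `j` is shared), then the projections to the coordinates in `T` are equidistributed.
* Unconditional cases: if for no set `T` and no bound `B` infinitely many `x_i` have all coordinates in
  `T` shared and all gaps in `T` at most `B`, then the Galois orbits of the `x_i` are equidistributed
  in `X`. This holds for example if no three coordinates have the same CM field, and if no pair of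
  coordinates with the same CM field has the same ratio of the conductors infinitely often. So for
  `n = 2` the conjecture is true except possibly for sequences with one CM field and with a fixed
  ratio of the two conductors.
* Reduction: the conjecture for `X` and all its partial products is equivalent to the conjecture for
  the sequences for which all coordinates are shared and have constant gaps.

The known facts used (`CMFacts`, `HeckeFacts`) are the main theorem of complex multiplication, class
field theory for ring class fields, genus theory, the equidistribution of large Galois orbits on ONE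
modular curve (Duke, Iwaniec, Michel, Harcos and Michel, Zhang, Venkatesh) and the equidistribution of
Hecke orbits on ONE modular curve (Clozel, Oh, Ullmo; Fouvry, Kowalski, Michel).
-/

namespace Pool.Agent.Results.MP_ad7a55_nt.ConductorGaps

open Filter Pool.Agent.Q28.EQ Pool.Agent.Q155.HK

/-- **Equidistribution for special points whose conductors have unbounded gaps.** `G` is the Galois
group of the algebraic numbers, `GF` the subgroup of the number field `F`, `C ⊆ GF` the subgroup of
a number field normal over the rationals containing `F` and enough roots of unity, `Z` the modular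
curve of level one, `N` the product of the levels of the curves. -/
theorem result {G : Type} [Group G] {GF C : Subgroup G} (hCn : C.Normal) (hCi : C.index ≠ 0)
    {n : ℕ} {Y : Fin n → CMCurve G GF} (hF : ∀ j, CMFacts C (Y j)) {Z : CMCurve G GF}
    (hZ : CMFacts C Z) {N : ℕ} {loc : Subgroup G → ℕ → ℕ → Subgroup G}
    {D : ∀ j, Descent Z (Y j)} (hD : ∀ j, HeckeFacts C N loc Z (Y j) (D j)) :
    -- (1) at most two coordinates in each CM field, each ratio of conductors only finitely often
    (∀ x : ℕ → Special Y, NoConstantCoordinate Y x →
      (∀ᶠ i in atTop, ∀ j k m : Fin n, j ≠ k → j ≠ m → k ≠ m →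
        (Y j).K (x i j) = (Y k).K (x i k) → (Y j).K (x i j) ≠ (Y m).K (x i m)) →
      (∀ j k, j ≠ k → ∀ a b, 0 < a → 0 < b → {i | (Y j).K (x i j) = (Y k).K (x i k) ∧
        b * (D j).cond (x i j) = a * (D k).cond (x i k)}.Finite) →
      Equidistributed Y x) ∧
    -- (2) no core
    (∀ x : ℕ → Special Y, NoConstantCoordinate Y x →
      (∀ T : Finset (Fin n), T.Nonempty → ∀ B,
        {i | ∀ j ∈ T, Shared Y T j (x i) ∧ gap D T j (x i) ≤ B}.Finite) →
      Equidistributed Y x) ∧
    -- (3) peeling
    (∀ (x : ℕ → Special Y) (T : Finset (Fin n)), ∀ j ∈ T, (∀ p, {i | x i j = p}.Finite) →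
      (∀ B, ∀ᶠ i in atTop, Shared Y T j (x i) → B ≤ gap D T j (x i)) →
      EquidistributedOn Y (T.erase j) x → EquidistributedOn Y T x) ∧
    -- (4) reduction to the sequences with a core, for any family of conditions
    (∀ 𝒵 : Finset (Fin n) → Set (Set (Special Y)),
      (∀ T, ∀ j ∈ T, ∀ p : (Y j).P, {x | x j = p} ∈ 𝒵 T) → (∀ S T, S ⊆ T → 𝒵 S ⊆ 𝒵 T) →
      ((∀ (T : Finset (Fin n)) (x : ℕ → Special Y), (∀ A ∈ 𝒵 T, {i | x i ∈ A}.Finite) →
          EquidistributedOn Y T x) ↔
        ∀ T : Finset (Fin n), T.Nonempty → ∀ x : ℕ → Special Y, IsCore D T x →
          (∀ A ∈ 𝒵 T, {i | x i ∈ A}.Finite) → EquidistributedOn Y T x)) := by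
  have h2 : ∀ x : ℕ → Special Y, NoConstantCoordinate Y x →
      (∀ T : Finset (Fin n), T.Nonempty → ∀ B,
        ∀ᶠ i in atTop, ¬ ∀ j ∈ T, Shared Y T j (x i) ∧ gap D T j (x i) ≤ B) →
      Equidistributed Y x := fun x hx h =>
    equidistributed_of_prodOn hF x (noCore hF hZ hCn hCi hD atTop x
      (fun j B => disc_large hF x j (hx j) B) h Finset.univ)
  refine ⟨fun x hx h3 hr => h2 x hx fun T hT B =>
      noCore_of_pairs (fun k p => (hD k).cond_ne_zero p) x h3 hr T hT B,
    fun x hx h => h2 x hx fun T hT B => ?_, fun x T j hj hx hgap hrest => ?_,
    fun 𝒵 h𝒵 hmono => ⟨fun h T _ x _ hA => h T x hA, fun h T x hA => ?_⟩⟩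
  · rw [← Nat.cofinite_eq_atTop]
    exact (h T hT B).compl_mem_cofinite
  · exact eqOn_of_prodOn hF atTop T x (peel hF hZ hCn hCi hD atTop x T j hj
      (fun B => disc_large hF x j hx B) hgap (prodOn_of_eqOn hF atTop _ x hrest))
  · exact eqOn_of_prodOn hF atTop T x (reduction hF hZ hCn hCi hD 𝒵 h𝒵 hmono h T x hA)

end Pool.Agent.Results.MP_ad7a55_nt.ConductorGaps
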