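import Pool.Agent.Q28.OF.Main

/-!
# MP_ad7a55_nt: one CM field at a time

The equidistribution of the Galois orbits of special points on products of modular curves, in a strong
form, follows from the case in which all coordinates have the same CM field.
-/

namespace Pool.Agent.Results.MP_ad7a55_nt.OneFieldAtATime

open Pool.Agent.Q28.EQ Pool.Agent.Q155.HK Pool.Agent.Q28.OF

theorem result {G : Type} [Group G] {GF C : Subgroup G} {n : ℕ} (hCn : C.Normal)
    (Y : Fin n → CMCurve G GF) (hG : ∀ j, GaloisFacts C (Y j)) :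
    (∀ (T : Finset (Fin n)) (x : ℕ → Special Y),
      (∀ b ⊆ T, b.Nonempty → ∀ ψ : ℕ → ℕ, StrictMono ψ → HasOneField Y b (fun i => x (ψ i)) →
        StronglyEquidistributedOn C Y b fun i => x (ψ i)) →
      StronglyEquidistributedOn C Y T x) ∧
    (∀ (T : Finset (Fin n)) (x : ℕ → Special Y), StronglyEquidistributedOn C Y T x →
      EquidistributedOn Y T x) ∧
    (∀ 𝒵 : Finset (Fin n) → Set (Set (Special Y)), (∀ S T, S ⊆ T → 𝒵 S ⊆ 𝒵 T) →
      ((∀ (T : Finset (Fin n)) (x : ℕ → Special Y), (∀ A ∈ 𝒵 T, {i | x i ∈ A}.Finite) →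
          StronglyEquidistributedOn C Y T x) ↔
        ∀ (T : Finset (Fin n)) (x : ℕ → Special Y), (∀ A ∈ 𝒵 T, {i | x i ∈ A}.Finite) →
          T.Nonempty → HasOneField Y T x → StronglyEquidistributedOn C Y T x)) ∧
    ((∀ j, CMFacts C (Y j)) → C.index ≠ 0 → ∀ (j : Fin n) (x : ℕ → Special Y),
      (∀ p : (Y j).P, {i | x i j = p}.Finite) → StronglyEquidistributedOn C Y {j} x) := by
  refine ⟨fun T x h => criterion hG hCn T x h, fun T x h => equidistributedOn hG T x h,
    fun 𝒵 hmono => ⟨fun h T x hx _ _ => h T x hx, fun h T x hx => criterion hG hCn T x ?_⟩,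
    fun hF hCi j x hx => single hF hCn hCi j x fun B => disc_large' hF x j hx B⟩
  intro b hb hne ψ hψ hone
  refine h b _ (fun A hA => ?_) hne hone
  exact Set.Finite.preimage (f := ψ) (s := {i | x i ∈ A}) hψ.injective.injOn
    (hx A (hmono b T hb hA))

end Pool.Agent.Results.MP_ad7a55_nt.OneFieldAtATime
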